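import Pool.Agent.X69.Ric.PatC
import Pool.Agent.X69.Ric.PackP
import Pool.Agent.TH464.PW.Quad

set_option autoImplicit false

/-!
# The packaged theorems of `Pool.Agent.X69.Ric` for one quadratic polynomial, at primes and at integers
-/

namespace Pool.Agent.Helper724_Q

open Polynomial Filter MeasureTheory
open Pool.Agent.X69.Ric
open Pool.Agent.TH464.PW (quad quad_eval quad_irr quad_deg quad_lead)
open Pool.Agent.W123.RU.Poly (Sys)

/-- one quadratic polynomial at prime arguments -/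
theorem psys_one (a b c : ℤ) (v : ℕ → ℕ) (ha : 0 < a)
    (hg : ∀ p : ℕ, p.Prime → ¬ ((p : ℤ) ∣ a ∧ (p : ℤ) ∣ b ∧ (p : ℤ) ∣ c))
    (hD : ¬ IsSquare (b ^ 2 - 4 * a * c))
    (hadm : ∀ p : ℕ, p.Prime → ∃ m : ℕ, ¬ p ∣ m ∧ ¬ (p : ℤ) ∣ a * (m : ℤ) ^ 2 + b * m + c)
    (hv : ∀ n : ℕ, 1 ≤ n → a * (n : ℤ) ^ 2 + b * n + c = (v n : ℤ)) :
    PSys (fun _ : Fin 1 => quad a b c) (fun n _ => v n) where
  irr := fun _ => quad_irr a b c ha.ne' hg hD
  deg := fun _ => by rw [quad_deg a b c ha.ne']; norm_num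
  lead := fun _ => by rw [quad_lead a b c ha.ne']; exact ha
  inj := fun _ _ _ => Subsingleton.elim _ _
  neX := fun _ h => by
    have h1 := quad_deg a b c ha.ne'
    rw [h, natDegree_X] at h1
    omega
  adm := fun p hp => by
    obtain ⟨m, h1, h2⟩ := hadm p hp
    refine ⟨m, h1, fun _ => ?_⟩
    rw [quad_eval]
    exact h2
  val := fun n hn _ => by
    rw [quad_eval]
    exact hv n hn

/-- one quadratic polynomial at integer arguments -/
theorem sys_one (a b c : ℤ) (ha : 0 < a)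
    (hg : ∀ p : ℕ, p.Prime → ¬ ((p : ℤ) ∣ a ∧ (p : ℤ) ∣ b ∧ (p : ℤ) ∣ c))
    (hD : ¬ IsSquare (b ^ 2 - 4 * a * c))
    (hadm : ∀ p : ℕ, p.Prime → ∃ m : ℕ, ¬ (p : ℤ) ∣ a * (m : ℤ) ^ 2 + b * m + c) :
    Sys (fun _ : Fin 1 => quad a b c) where
  irr := fun _ => quad_irr a b c ha.ne' hg hD
  deg := fun _ => by rw [quad_deg a b c ha.ne']; norm_num
  lead := fun _ => by rw [quad_lead a b c ha.ne']; exact ha
  inj := fun _ _ _ => Subsingleton.elim _ _
  adm := fun p hp => by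
    obtain ⟨m, h2⟩ := hadm p hp
    refine ⟨m, fun _ => ?_⟩
    rw [quad_eval]
    exact h2

end Pool.Agent.Helper724_Q
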