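import Pool.Agent.R498.MP.PU9

set_option autoImplicit false

/-!
# Many runs of primes with index in a residue class and almost prime values
-/

namespace Pool.Agent.Helper724_Q

open Finset Filter Polynomial
open Pool.Agent.R498.MP (APZ stringsUR index_pick)

/-- the values of a polynomial on `[-2 N, 2 N]` -/
theorem eval_pow (f : ℤ[X]) : ∃ A : ℕ, ∀ᶠ N : ℕ in atTop, ∀ x : ℤ, |x| ≤ 2 * N → |f.eval x| ≤ (N : ℤ) ^ A := by
  obtain ⟨K, D, hKD⟩ := Pool.Agent.W123.RU.Poly.eval_bound f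
  refine ⟨2 * D + 1, ?_⟩
  filter_upwards [eventually_ge_atTop K, eventually_ge_atTop 3] with N h1 h2 x hx
  have h3 := hKD x
  have hN : (3 : ℝ) ≤ N := by exact_mod_cast h2
  have hK : (K : ℝ) ≤ N := by exact_mod_cast h1
  have hx' : |(x : ℝ)| ≤ 2 * N := by exact_mod_cast hx
  have h4 : (1 + |(x : ℝ)|) ≤ (N : ℝ) ^ 2 := by nlinarith
  have h5 : |((f.eval x : ℤ) : ℝ)| ≤ (N : ℝ) ^ (2 * D + 1) := by
    refine h3.trans ?_
    have h0 : 0 ≤ 1 + |(x : ℝ)| := by positivity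
    calc (K : ℝ) * (1 + |(x : ℝ)|) ^ D ≤ N * ((N : ℝ) ^ 2) ^ D := by gcongr
      _ = (N : ℝ) ^ (2 * D + 1) := by rw [← pow_mul]; ring
  exact_mod_cast h5

/-- **Many runs of primes with index in a residue class, all in a residue class, with almost prime
values.** -/
theorem index_count (f : ℤ[X]) (hz : ∀ n : ℤ, n ≠ 0 → f.eval n ≠ 0)
    (hadm : ∀ p : ℕ, p.Prime → ∃ n : ℤ, ¬ (p : ℤ) ∣ n * f.eval n)
    (q : ℕ) (hq : Squarefree q) (u r : ℕ) (hu : 1 ≤ u) :
    ∃ (C R B : ℕ) (δ : ℝ), 0 < δ ∧ ∀ a : ℕ, ∀ᶠ N : ℕ in atTop,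
      ∀ e : ℕ, (∀ p : ℕ, p.Prime → p ∣ q → ¬ (p : ℤ) ∣ (e : ℤ) * f.eval (e : ℤ)) →
      ∃ T : Finset ℕ, (N : ℝ) ≤ Real.log N ^ B * T.card ∧ ∀ k ∈ T,
        N < Nat.nth Nat.Prime (u * k + a) ∧ Nat.nth Nat.Prime (u * (k + r) + a) ≤ 2 * N ∧
        Nat.nth Nat.Prime (u * (k + r) + a) ≤ Nat.nth Nat.Prime (u * k + a) + C ∧
        ∀ i ≤ r, Nat.nth Nat.Prime (u * (k + i) + a) ≡ e [MOD q] ∧
          APZ R ((N : ℝ) ^ δ) (f.eval ((Nat.nth Nat.Prime (u * (k + i) + a) : ℕ) : ℤ)) := by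
  classical
  obtain ⟨K, B, δ, hδ, hmain⟩ := stringsUR f.natDegree q hq (u * (r + 2) + 1)
  obtain ⟨C, hC⟩ : ∃ C, C = (Finset.range K).sup id := ⟨_, rfl⟩
  obtain ⟨A, hA⟩ := eval_pow f
  obtain ⟨R, hR⟩ := hmain A
  refine ⟨C, R, B + 1, δ, hδ, fun a => ?_⟩
  have hlog : Tendsto (fun N : ℕ => Real.log (N : ℝ)) atTop atTop :=
    Real.tendsto_log_atTop.comp tendsto_natCast_atTop_atTop
  filter_upwards [hR (Finset.range K) (by rw [card_range]), hA,
    eventually_ge_atTop (Nat.nth Nat.Prime (a + u)), eventually_ge_atTop 1,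
    hlog.eventually_ge_atTop ((C : ℝ) + 1)] with N hN hN2 hN3 hN1 hN4
  intro e he
  rw [← hC] at hN
  obtain ⟨H, hH, hHm, T, hT, hmem⟩ := hN f le_rfl hadm hN2 (fun x hx _ => hz x hx) e he
  have hHC : ∀ h ∈ H, h ≤ C := fun h hh => by
    rw [hC]
    exact Finset.le_sup (f := id) (hH hh)
  have hpick : ∀ n ∈ T, ∃ k : ℕ, ∀ i ≤ r, ∃ h ∈ H, Nat.nth Nat.Prime (u * (k + i) + a) = n + h := by
    intro n hn
    obtain ⟨h1, h2, g1, g2⟩ := hmem n hn
    exact index_pick n C H hHC g1 u r a hu hHm (by omega)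
  choose! k hk using hpick
  refine ⟨T.image k, ?_, ?_⟩
  · have hfib : ∀ j ∈ T.image k, (T.filter (fun n => k n = j)).card ≤ C + 1 := by
      intro j _
      have hsub : T.filter (fun n => k n = j) ⊆
          Finset.Icc (Nat.nth Nat.Prime (u * j + a) - C) (Nat.nth Nat.Prime (u * j + a)) := by
        intro n hn
        rw [mem_filter] at hn
        obtain ⟨h0, hh0, he0⟩ := hk n hn.1 0 (Nat.zero_le _)
        rw [add_zero, hn.2] at he0
        have := hHC h0 hh0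
        rw [Finset.mem_Icc]
        omega
      refine (card_le_card hsub).trans ?_
      rw [Nat.card_Icc]
      omega
    have hcard : T.card ≤ (C + 1) * (T.image k).card :=
      card_le_mul_card_image_of_maps_to (fun n hn => mem_image_of_mem k hn) (C + 1) hfib
    have hcr : (T.card : ℝ) ≤ ((C : ℝ) + 1) * (T.image k).card := by exact_mod_cast hcard
    have hl0 : (0 : ℝ) ≤ Real.log N := by
      have : (0 : ℝ) ≤ C := Nat.cast_nonneg _
      linarith
    calc (N : ℝ) ≤ Real.log N ^ B * T.card := hT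
      _ ≤ Real.log N ^ B * (((C : ℝ) + 1) * (T.image k).card) := by gcongr
      _ ≤ Real.log N ^ B * (Real.log N * (T.image k).card) := by gcongr
      _ = Real.log N ^ (B + 1) * (T.image k).card := by ring
  · intro j hj
    obtain ⟨n, hn, rfl⟩ := mem_image.1 hj
    obtain ⟨h1, h2, g1, g2⟩ := hmem n hn
    have hk' := hk n hn
    obtain ⟨h0, hh0, he0⟩ := hk' 0 (Nat.zero_le _)
    rw [add_zero] at he0
    obtain ⟨hr0, hhr0, her0⟩ := hk' r le_rfl
    have hb0 := hHC h0 hh0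
    have hbr := hHC hr0 hhr0
    refine ⟨by omega, by omega, by omega, fun i hi => ?_⟩
    obtain ⟨h, hh, he'⟩ := hk' i hi
    rw [he']
    exact g2 h hh

end Pool.Agent.Helper724_Q
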