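import Pool.Agent.H510R2.Div

set_option autoImplicit false

/-!
# Moments of the number of divisors up to `K`
-/

namespace Pool.Agent.Helper724_Q

open Finset

/-- the number of the divisors of `m` up to `K` -/
def tau (K m : ℕ) : ℕ := ((Icc 1 K).filter (fun k => k ∣ m)).card

/-- the moment over the multiples of `L` -/
noncomputable def FJ (M K J L : ℕ) : ℝ := ∑ m ∈ (Icc 1 M).filter (fun m => L ∣ m), (tau K m : ℝ) ^ J

theorem FJ_zero (M K L : ℕ) (hL : 1 ≤ L) : FJ M K 0 L ≤ M / L := by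
  unfold FJ
  simp only [pow_zero, sum_const, nsmul_eq_mul, mul_one]
  have h : ((Icc 1 M).filter (fun m => L ∣ m)).card ≤ M / L := by
    have h1 : (Icc 1 M).filter (fun m => L ∣ m) ⊆ (Icc 1 (M / L)).image (fun j => j * L) := by
      intro m hm
      rw [mem_filter, mem_Icc] at hm
      obtain ⟨⟨h1, h2⟩, j, rfl⟩ := hm
      rw [mem_image]
      refine ⟨j, ?_, mul_comm _ _⟩
      rw [mem_Icc]
      constructor
      · rcases Nat.eq_zero_or_pos j with h | h
        · subst h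
          omega
        · exact h
      · rw [Nat.le_div_iff_mul_le (by omega)]
        rwa [mul_comm] at h2
    have h2 := (card_le_card h1).trans card_image_le
    rwa [Nat.card_Icc, Nat.add_sub_cancel] at h2
  calc (((Icc 1 M).filter (fun m => L ∣ m)).card : ℝ) ≤ ((M / L : ℕ) : ℝ) := by exact_mod_cast h
    _ ≤ M / L := Nat.cast_div_le

theorem FJ_succ (M K J L : ℕ) : FJ M K (J + 1) L = ∑ k ∈ Icc 1 K, FJ M K J (Nat.lcm L k) := by
  unfold FJ
  have h1 : ∀ m : ℕ, (tau K m : ℝ) ^ (J + 1) = ∑ k ∈ Icc 1 K, if k ∣ m then (tau K m : ℝ) ^ J else 0 := by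
    intro m
    rw [pow_succ, ← Finset.sum_filter, sum_const, nsmul_eq_mul, mul_comm]
    rfl
  rw [sum_congr rfl (fun m _ => h1 m), sum_comm]
  apply sum_congr rfl
  intro k _
  rw [← Finset.sum_filter, Finset.filter_filter]
  apply sum_congr _ (fun _ _ => rfl)
  apply filter_congr
  intro m _
  exact Nat.lcm_dvd_iff.symm

theorem sum_gcd (K L : ℕ) (hL : 1 ≤ L) :
    ∑ k ∈ Icc 1 K, ((Nat.gcd L k : ℕ) : ℝ) / k ≤ L.divisors.card * ∑ j ∈ Icc 1 K, (1 : ℝ) / j := by
  have h1 : ∀ k ∈ Icc 1 K, ((Nat.gcd L k : ℕ) : ℝ) / k ≤ ∑ d ∈ L.divisors, if d ∣ k then (d : ℝ) / k else 0 := by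
    intro k hk
    have h2 : Nat.gcd L k ∈ L.divisors := Nat.mem_divisors.2 ⟨Nat.gcd_dvd_left _ _, by omega⟩
    have h3 := single_le_sum (f := fun d : ℕ => if d ∣ k then (d : ℝ) / k else 0) (fun d _ => by
      show (0 : ℝ) ≤ if d ∣ k then (d : ℝ) / k else 0
      split_ifs
      · positivity
      · exact le_rfl) h2
    simp only [if_pos (Nat.gcd_dvd_right L k)] at h3
    exact h3
  refine (sum_le_sum h1).trans ?_
  rw [sum_comm]
  have h4 : ∀ d ∈ L.divisors, ∑ k ∈ Icc 1 K, (if d ∣ k then (d : ℝ) / k else 0) ≤ ∑ j ∈ Icc 1 K, (1 : ℝ) / j := by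
    intro d hd
    have hd0 : 1 ≤ d := Nat.pos_of_mem_divisors hd
    have hd0r : (0 : ℝ) < d := by exact_mod_cast hd0
    rw [← Finset.sum_filter]
    have h5 : ∑ k ∈ (Icc 1 K).filter (fun k => d ∣ k), (d : ℝ) / k =
        ∑ j ∈ ((Icc 1 K).filter (fun k => d ∣ k)).image (fun k => k / d), (1 : ℝ) / j := by
      rw [sum_image]
      · apply sum_congr rfl
        intro k hk
        rw [mem_filter, mem_Icc] at hk
        obtain ⟨⟨hk1, hk2⟩, j, rfl⟩ := hk
        rw [Nat.mul_div_cancel_left j (by omega)]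
        have hj : (0 : ℝ) < j := by
          have : 0 < j := Nat.pos_of_ne_zero (fun h => by subst h; omega)
          exact_mod_cast this
        push_cast
        field_simp
      · intro a ha b hb hab
        rw [mem_coe, mem_filter] at ha hb
        obtain ⟨-, i, rfl⟩ := ha
        obtain ⟨-, j, rfl⟩ := hb
        simp only at hab
        rw [Nat.mul_div_cancel_left i (by omega), Nat.mul_div_cancel_left j (by omega)] at hab
        rw [hab]
    rw [h5]
    apply sum_le_sum_of_subset_of_nonneg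
    · intro j hj
      rw [mem_image] at hj
      obtain ⟨k, hk, rfl⟩ := hj
      rw [mem_filter, mem_Icc] at hk
      obtain ⟨⟨hk1, hk2⟩, i, rfl⟩ := hk
      rw [Nat.mul_div_cancel_left i (by omega), mem_Icc]
      constructor
      · exact Nat.pos_of_ne_zero (fun h => by subst h; omega)
      · calc i = 1 * i := (one_mul i).symm
          _ ≤ d * i := Nat.mul_le_mul_right i hd0
          _ ≤ K := hk2
    · intro j _ _
      positivity
  refine (sum_le_sum h4).trans ?_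
  rw [sum_const, nsmul_eq_mul]

theorem harm_le (K : ℕ) : ∑ j ∈ Icc 1 K, (1 : ℝ) / j ≤ 1 + Real.log K := by
  have h := harmonic_le_one_add_log K
  rw [harmonic_eq_sum_Icc] at h
  push_cast at h
  simpa [one_div] using h

/-- the inductive bound -/
theorem FJ_le (η C : ℝ) (hη : 0 < η) (hC : 0 < C) (hdiv : ∀ n : ℕ, 1 ≤ n → (n.divisors.card : ℝ) ≤ C * (n : ℝ) ^ η)
    (J₀ : ℕ) (hJ₀ : J₀ * η ≤ 1) (M K : ℕ) (hK : 1 ≤ K) (J : ℕ) (hJ : J ≤ J₀) :
    ∀ L : ℕ, 1 ≤ L → FJ M K J L ≤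
      M * (C * (1 + Real.log K) * (K : ℝ) ^ ((J₀ : ℝ) * η)) ^ J * (L : ℝ) ^ ((J : ℝ) * η - 1) := by
  have hK1 : (1 : ℝ) ≤ K := by exact_mod_cast hK
  have hlK : 0 ≤ Real.log K := Real.log_nonneg hK1
  set B : ℝ := C * (1 + Real.log K) * (K : ℝ) ^ ((J₀ : ℝ) * η) with hB
  have hB0 : 0 < B := by positivity
  induction J with
  | zero =>
    intro L hL
    have hL0 : (0 : ℝ) < L := by exact_mod_cast hL
    have h := FJ_zero M K L hL
    rw [pow_zero, mul_one, Nat.cast_zero, zero_mul, zero_sub, Real.rpow_neg_one]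
    rwa [div_eq_mul_inv] at h
  | succ J ih =>
    intro L hL
    have hL0 : (0 : ℝ) < L := by exact_mod_cast hL
    rw [FJ_succ]
    have hJη : (J : ℝ) * η ≤ (J₀ : ℝ) * η := by
      have : (J : ℝ) ≤ J₀ := by exact_mod_cast (by omega : J ≤ J₀)
      gcongr
    have h1 : ∀ k ∈ Icc 1 K, FJ M K J (Nat.lcm L k) ≤
        M * B ^ J * (L : ℝ) ^ ((J : ℝ) * η - 1) * (K : ℝ) ^ ((J₀ : ℝ) * η) * (((Nat.gcd L k : ℕ) : ℝ) / k) := by
      intro k hk
      rw [mem_Icc] at hk
      have hlcm : 1 ≤ Nat.lcm L k := Nat.lcm_pos (by omega) (by omega)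
      refine (ih (by omega) _ hlcm).trans ?_
      have hg1 : 1 ≤ Nat.gcd L k := Nat.gcd_pos_of_pos_left _ (by omega)
      obtain ⟨t, ht⟩ := Nat.gcd_dvd_right L k
      have ht1 : 1 ≤ t := Nat.pos_of_ne_zero (fun h => by rw [h, mul_zero] at ht; omega)
      have ht0 : (0 : ℝ) < t := by exact_mod_cast ht1
      have hg0 : (0 : ℝ) < (Nat.gcd L k : ℕ) := by exact_mod_cast hg1
      have hkr : (k : ℝ) = (Nat.gcd L k : ℕ) * t := by exact_mod_cast ht
      have hlt : Nat.lcm L k = L * t := by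
        have h2 : Nat.gcd L k * Nat.lcm L k = L * k := Nat.gcd_mul_lcm L k
        have h3 : Nat.gcd L k * Nat.lcm L k = Nat.gcd L k * (L * t) := by
          rw [h2]
          conv_lhs => rw [ht]
          ring
        exact Nat.eq_of_mul_eq_mul_left (by omega) h3
      have hlr : ((Nat.lcm L k : ℕ) : ℝ) = L * t := by exact_mod_cast hlt
      have htK : (t : ℝ) ≤ K := by
        have : t ≤ k := by
          rw [ht]
          exact Nat.le_mul_of_pos_left t (by omega)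
        exact_mod_cast this.trans hk.2
      have h4 : ((Nat.lcm L k : ℕ) : ℝ) ^ ((J : ℝ) * η - 1) ≤
          (L : ℝ) ^ ((J : ℝ) * η - 1) * ((K : ℝ) ^ ((J₀ : ℝ) * η) * (((Nat.gcd L k : ℕ) : ℝ) / k)) := by
        rw [hlr, Real.mul_rpow hL0.le ht0.le]
        apply mul_le_mul_of_nonneg_left _ (by positivity)
        have h5 : (t : ℝ) ^ ((J : ℝ) * η - 1) = (t : ℝ) ^ ((J : ℝ) * η) * (1 / t) := by
          rw [Real.rpow_sub ht0, Real.rpow_one]
          ring
        have h6 : (((Nat.gcd L k : ℕ) : ℝ) / k) = 1 / t := by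
          rw [hkr]
          field_simp
        rw [h5, h6]
        apply mul_le_mul_of_nonneg_right _ (by positivity)
        calc (t : ℝ) ^ ((J : ℝ) * η) ≤ (K : ℝ) ^ ((J : ℝ) * η) :=
              Real.rpow_le_rpow ht0.le htK (by positivity)
          _ ≤ (K : ℝ) ^ ((J₀ : ℝ) * η) := Real.rpow_le_rpow_of_exponent_le hK1 hJη
      calc M * B ^ J * ((Nat.lcm L k : ℕ) : ℝ) ^ ((J : ℝ) * η - 1)
          ≤ M * B ^ J * ((L : ℝ) ^ ((J : ℝ) * η - 1) *
            ((K : ℝ) ^ ((J₀ : ℝ) * η) * (((Nat.gcd L k : ℕ) : ℝ) / k))) := by gcongr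
        _ = _ := by ring
    refine (sum_le_sum h1).trans ?_
    rw [← mul_sum]
    have h2 := sum_gcd K L hL
    have h3 : ∑ k ∈ Icc 1 K, (((Nat.gcd L k : ℕ) : ℝ) / k) ≤ C * (L : ℝ) ^ η * (1 + Real.log K) := by
      refine h2.trans ?_
      have h4 := harm_le K
      have h5 := hdiv L hL
      have h6 : (0 : ℝ) ≤ ∑ j ∈ Icc 1 K, (1 : ℝ) / j := sum_nonneg (fun _ _ => by positivity)
      calc (L.divisors.card : ℝ) * ∑ j ∈ Icc 1 K, (1 : ℝ) / j ≤ (C * (L : ℝ) ^ η) * (1 + Real.log K) :=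
            mul_le_mul h5 h4 h6 (by positivity)
        _ = _ := by ring
    calc M * B ^ J * (L : ℝ) ^ ((J : ℝ) * η - 1) * (K : ℝ) ^ ((J₀ : ℝ) * η) *
          ∑ k ∈ Icc 1 K, (((Nat.gcd L k : ℕ) : ℝ) / k)
        ≤ M * B ^ J * (L : ℝ) ^ ((J : ℝ) * η - 1) * (K : ℝ) ^ ((J₀ : ℝ) * η) *
          (C * (L : ℝ) ^ η * (1 + Real.log K)) := by gcongr
      _ = M * B ^ J * B * ((L : ℝ) ^ ((J : ℝ) * η - 1) * (L : ℝ) ^ η) := by rw [hB]; ring
      _ = M * B ^ (J + 1) * (L : ℝ) ^ (((J + 1 : ℕ) : ℝ) * η - 1) := by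
        rw [← Real.rpow_add hL0, pow_succ]
        push_cast
        ring_nf

/-- **Moments of the number of divisors up to `K`.** -/
theorem moment (J : ℕ) (ε : ℝ) (hε : 0 < ε) : ∃ C : ℝ, 0 < C ∧ ∀ K : ℕ, 1 ≤ K → ∀ M : ℕ,
    ∑ m ∈ Icc 1 M, (tau K m : ℝ) ^ J ≤ M * (C * (K : ℝ) ^ ε) ^ J := by
  set η : ℝ := min ε 1 / (2 * (J + 1)) with hη
  have hη0 : 0 < η := by
    have : 0 < min ε 1 := lt_min hε one_pos
    positivity
  have hJη : (J : ℝ) * η ≤ min ε 1 / 2 := by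
    have h0 : 0 < min ε 1 := lt_min hε one_pos
    rw [hη]
    have h1 : (J : ℝ) * (min ε 1 / (2 * (J + 1))) = (J / (J + 1)) * (min ε 1 / 2) := by
      field_simp
    rw [h1]
    have h2 : (J : ℝ) / (J + 1) ≤ 1 := by
      rw [div_le_one (by positivity)]
      linarith
    have h3 : 0 ≤ min ε 1 / 2 := by positivity
    nlinarith
  obtain ⟨C, hC, hdiv⟩ := Pool.Agent.H510R2.divisor_bound η hη0
  have hlogb : ∀ K : ℕ, 1 ≤ K → 1 + Real.log K ≤ (1 + 2 / ε) * (K : ℝ) ^ (ε / 2) := by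
    intro K hK
    have hK1 : (1 : ℝ) ≤ K := by exact_mod_cast hK
    have h1 : Real.log K ≤ (K : ℝ) ^ (ε / 2) / (ε / 2) := Real.log_le_rpow_div (by linarith) (by positivity)
    have h2 : 1 ≤ (K : ℝ) ^ (ε / 2) := Real.one_le_rpow hK1 (by positivity)
    have h3 : (K : ℝ) ^ (ε / 2) / (ε / 2) = 2 / ε * (K : ℝ) ^ (ε / 2) := by field_simp
    rw [h3] at h1
    linarith
  refine ⟨C * (1 + 2 / ε), by positivity, fun K hK M => ?_⟩
  have hK1 : (1 : ℝ) ≤ K := by exact_mod_cast hK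
  have h := FJ_le η C hη0 hC hdiv J (hJη.trans (by
    have := min_le_right ε 1
    linarith)) M K hK J le_rfl 1 le_rfl
  have h1 : FJ M K J 1 = ∑ m ∈ Icc 1 M, (tau K m : ℝ) ^ J := by
    unfold FJ
    apply sum_congr _ (fun _ _ => rfl)
    apply filter_true_of_mem
    intro m _
    exact one_dvd m
  rw [h1, Nat.cast_one, Real.one_rpow, mul_one] at h
  refine h.trans ?_
  have hl0 : 0 ≤ Real.log K := Real.log_nonneg hK1
  apply mul_le_mul_of_nonneg_left _ (Nat.cast_nonneg M)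
  apply pow_le_pow_left₀ (by positivity)
  calc C * (1 + Real.log K) * (K : ℝ) ^ ((J : ℝ) * η)
      ≤ C * ((1 + 2 / ε) * (K : ℝ) ^ (ε / 2)) * (K : ℝ) ^ (ε / 2) := by
        have h7 := hlogb K hK
        have h8 : (J : ℝ) * η ≤ ε / 2 := by
          refine hJη.trans ?_
          have := min_le_left ε 1
          linarith
        have h9 : (K : ℝ) ^ ((J : ℝ) * η) ≤ (K : ℝ) ^ (ε / 2) := Real.rpow_le_rpow_of_exponent_le hK1 h8
        gcongr
    _ = C * (1 + 2 / ε) * ((K : ℝ) ^ (ε / 2) * (K : ℝ) ^ (ε / 2)) := by ring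
    _ = C * (1 + 2 / ε) * (K : ℝ) ^ ε := by
      rw [← Real.rpow_add (by linarith)]
      congr 2
      ring

end Pool.Agent.Helper724_Q
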