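import Pool.Agent.Helper724_Q.PS

set_option autoImplicit false

/-!
# The polynomial `x ^ 2 - 2`
-/

namespace Pool.Agent.Helper724_Q

open Polynomial Filter MeasureTheory
open Pool.Agent.X69.Ric
open Pool.Agent.TH464.PW (quad quad_eval quad_irr quad_deg quad_lead)
open Pool.Agent.W123.RU.Poly (Sys)

/-- the absolute value of `n ^ 2 - 2` -/
def V (n : ℕ) : ℕ := ((n : ℤ) ^ 2 - 2).natAbs

theorem dvd_V (q n : ℕ) : q ∣ V n ↔ (q : ℤ) ∣ (n : ℤ) ^ 2 - 2 := by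
  unfold V
  exact Int.natCast_dvd.symm

theorem V_eq (n : ℕ) (hn : 2 ≤ n) : V n = n ^ 2 - 2 := by
  unfold V
  have h : 2 ≤ n ^ 2 := by nlinarith
  have e : (n : ℤ) ^ 2 - 2 = ((n ^ 2 - 2 : ℕ) : ℤ) := by
    rw [Nat.cast_sub h]
    push_cast
    ring
  rw [e, Int.natAbs_natCast]

theorem ev2 (n : ℤ) : (quad 1 0 (-2)).eval n = n ^ 2 - 2 := by
  rw [quad_eval]
  ring

theorem hg2 : ∀ p : ℕ, p.Prime → ¬ ((p : ℤ) ∣ (1 : ℤ) ∧ (p : ℤ) ∣ (0 : ℤ) ∧ (p : ℤ) ∣ (-2 : ℤ)) := by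
  rintro p hp ⟨h1, -, -⟩
  have h2 : p ∣ 1 := by exact_mod_cast h1
  exact hp.one_lt.ne' (Nat.dvd_one.1 h2)

theorem hD2 : ¬ IsSquare ((0 : ℤ) ^ 2 - 4 * 1 * (-2)) := by
  rintro ⟨x, hx⟩
  have h1 : x * x = 8 := by rw [← hx]; norm_num
  have h2 : x < 3 := by nlinarith
  have h3 : -3 < x := by nlinarith
  interval_cases x <;> omega

theorem nd1 (p : ℕ) (hp : p.Prime) : ¬ (p : ℤ) ∣ ((1 : ℕ) : ℤ) ^ 2 - 2 := by
  intro h
  have h1 : (p : ℤ) ∣ 1 := by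
    have h2 : ((1 : ℕ) : ℤ) ^ 2 - 2 = -1 := by norm_num
    rw [h2] at h
    rwa [dvd_neg] at h
  have h2 : p ∣ 1 := by exact_mod_cast h1
  exact hp.one_lt.ne' (Nat.dvd_one.1 h2)

theorem irr2 : Irreducible (quad 1 0 (-2)) := quad_irr 1 0 (-2) one_ne_zero hg2 hD2

theorem deg2 : 0 < (quad 1 0 (-2)).natDegree := by rw [quad_deg 1 0 (-2) one_ne_zero]; norm_num

theorem lead2 : 0 < (quad 1 0 (-2)).leadingCoeff := by rw [quad_lead 1 0 (-2) one_ne_zero]; norm_num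

theorem neX2 : quad 1 0 (-2) ≠ X := by
  intro h
  have h1 := quad_deg 1 0 (-2) one_ne_zero
  rw [h, natDegree_X] at h1
  omega

theorem adm2 : ∀ p : ℕ, p.Prime → ∃ m : ℕ, ¬ p ∣ m ∧ ∀ _ : Fin 1, ¬ (p : ℤ) ∣ (quad 1 0 (-2)).eval (m : ℤ) := by
  intro p hp
  refine ⟨1, fun h => hp.one_lt.ne' (Nat.dvd_one.1 h), fun _ => ?_⟩
  rw [ev2]
  exact nd1 p hp

/-- integer arguments -/
theorem sys2 : Sys (fun _ : Fin 1 => quad 1 0 (-2)) where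
  irr := fun _ => irr2
  deg := fun _ => deg2
  lead := fun _ => lead2
  inj := fun _ _ _ => Subsingleton.elim _ _
  adm := fun p hp => by
    obtain ⟨m, -, h⟩ := adm2 p hp
    exact ⟨m, h⟩

/-- prime arguments -/
theorem sysX2 : Sys (cX (fun _ : Fin 1 => quad 1 0 (-2))) :=
  cX_sys _ (fun _ => irr2) (fun _ => deg2) (fun _ => lead2) (fun _ _ _ => Subsingleton.elim _ _)
    (fun _ => neX2) adm2

theorem dvdX2 (q n : ℕ) : (∃ i, (q : ℤ) ∣ ((cX (fun _ : Fin 1 => quad 1 0 (-2))) i).eval (n : ℤ)) ↔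
    (q ∣ n ∨ q ∣ V n) := by
  constructor
  · rintro ⟨i, hi⟩
    revert hi
    refine Fin.cases ?_ (fun i => ?_) i
    · intro hi
      have h1 : (q : ℤ) ∣ (X : ℤ[X]).eval (n : ℤ) := hi
      rw [eval_X] at h1
      exact Or.inl (Int.natCast_dvd_natCast.1 h1)
    · intro hi
      have h1 : (q : ℤ) ∣ (quad 1 0 (-2)).eval (n : ℤ) := hi
      rw [ev2] at h1
      exact Or.inr ((dvd_V q n).2 h1)
  · rintro (h | h)
    · refine ⟨0, ?_⟩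
      show (q : ℤ) ∣ (X : ℤ[X]).eval (n : ℤ)
      rw [eval_X]
      exact Int.natCast_dvd_natCast.2 h
    · refine ⟨1, ?_⟩
      show (q : ℤ) ∣ (quad 1 0 (-2)).eval (n : ℤ)
      rw [ev2]
      exact (dvd_V q n).1 h

theorem mem_AA2 (r n : ℕ) : n ∈ AA (fun _ : Fin 1 => quad 1 0 (-2)) r ↔
    ArithmeticFunction.cardFactors (V n) ≤ r ∧
      ∀ p : ℕ, p.Prime → p ∣ V n → (n : ℝ) ^ (1 / (r : ℝ)) < p := by
  unfold AA
  simp only [Set.mem_ofPred_eq, forall_const, ev2, dvd_V]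
  rfl

end Pool.Agent.Helper724_Q
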