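import Pool.Agent.Helper724_Q.Two
import Pool.Agent.TH977.PW.Input
import Pool.Agent.W38.PRb

set_option autoImplicit false

/-!
# Upper bounds: primes `p` with `p ^ 2 - 2` prime, and their indices
-/

namespace Pool.Agent.Helper724_Q

open Finset Filter Polynomial
open Pool.Agent.X69.Ric (cX)
open Pool.Agent.TH464.PW (quad Rgh Qs)

open Classical in
/-- the primes `p ≤ z` with `p ^ 2 - 2` prime -/
noncomputable def Qf (z : ℕ) : Finset ℕ := (Finset.Icc 1 z).filter (fun p => p.Prime ∧ (p ^ 2 - 2).Prime)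

theorem sub_ge {p : ℕ} (hp : 2 ≤ p) : p ≤ p ^ 2 - 2 := by
  rcases Nat.lt_or_ge p 3 with h3 | h3
  · have : p = 2 := by omega
    subst this
    norm_num
  · have : p + 2 ≤ p ^ 2 := by nlinarith
    omega

theorem Q_ev : ∃ C : ℝ, 0 < C ∧ ∀ᶠ z : ℕ in atTop, ((Qf z).card : ℝ) ≤ C * (z / Real.log z ^ 2) := by
  classical
  obtain ⟨K1, hK1, h⟩ := Pool.Agent.TH977.PW.upper_input (cX (fun _ : Fin 1 => quad 1 0 (-2))) sysX2 1
    one_pos le_rfl
  obtain ⟨C1, C2, hC1, hC2, h'⟩ := h K1 le_rfl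
  refine ⟨C1 + 1, by positivity, ?_⟩
  have hsm := Pool.Agent.TH464.PW.logpow_rpow 2 1 (1 / 2) one_pos (by norm_num)
  filter_upwards [h' 1 one_pos, hsm, eventually_ge_atTop 3] with z hz hz2 hz3
  obtain ⟨-, -, hz4, -⟩ := hz z (by simp) le_rfl
  simp only [Fintype.card_fin, Nat.reduceAdd] at hz4
  have hzr : (3 : ℝ) ≤ z := by exact_mod_cast hz3
  have hz0 : (0 : ℝ) < z := by linarith
  have hlog : 0 < Real.log z := Real.log_pos (by linarith)
  set w : ℕ := ⌊(z : ℝ) ^ (1 / (K1 : ℝ))⌋₊ with hw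
  have hsub : Qf z ⊆ (Finset.Icc 1 w) ∪ (Finset.Ioc 0 (4 * z)).filter
      (Rgh (cX (fun _ : Fin 1 => quad 1 0 (-2))) K1 z z) := by
    intro p hp
    unfold Qf at hp
    rw [mem_filter, mem_Icc] at hp
    obtain ⟨⟨hp1, hpz⟩, hpp, hpq⟩ := hp
    rw [mem_union, mem_Icc, mem_filter, mem_Ioc]
    by_cases hpw : p ≤ w
    · exact Or.inl ⟨hp1, hpw⟩
    · right
      push Not at hpw
      refine ⟨⟨by omega, by omega⟩, ?_⟩
      intro q hq hd
      rw [Pool.Agent.H373R2.T7.mem_pz] at hq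
      have hd' : ∃ i, (q : ℤ) ∣ ((cX (fun _ : Fin 1 => quad 1 0 (-2))) i).eval (p : ℤ) := by
        obtain ⟨i, hi⟩ := hd
        refine ⟨i, ?_⟩
        simpa using hi
      rcases (dvdX2 q p).1 hd' with h1 | h1
      · have := (Nat.prime_dvd_prime_iff_eq hq.2 hpp).1 h1
        omega
      · rw [V_eq p hpp.two_le] at h1
        have h2 := (Nat.prime_dvd_prime_iff_eq hq.2 hpq).1 h1
        have h3 := sub_ge hpp.two_le
        omega
  have h1 : ((Qf z).card : ℝ) ≤ w + C1 * z / Real.log z ^ 2 := by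
    have h2 := (card_le_card hsub).trans (card_union_le _ _)
    have h3 : ((Qf z).card : ℝ) ≤ ((Finset.Icc 1 w).card : ℝ) + (((Finset.Ioc 0 (4 * z)).filter
      (Rgh (cX (fun _ : Fin 1 => quad 1 0 (-2))) K1 z z)).card : ℝ) := by exact_mod_cast h2
    rw [Nat.card_Icc, Nat.add_sub_cancel] at h3
    refine h3.trans (add_le_add le_rfl ?_)
    exact hz4
  have h2 : (w : ℝ) ≤ z / Real.log z ^ 2 := by
    have h3 : (w : ℝ) ≤ (z : ℝ) ^ (1 / (K1 : ℝ)) := Nat.floor_le (by positivity)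
    have h4 : (z : ℝ) ^ (1 / (K1 : ℝ)) ≤ (z : ℝ) ^ (1 / 2 : ℝ) := by
      apply Real.rpow_le_rpow_of_exponent_le (by linarith)
      have : (2 : ℝ) ≤ K1 := by exact_mod_cast hK1
      gcongr
    have h5 : (z : ℝ) ^ (1 / 2 : ℝ) * (z : ℝ) ^ (1 / 2 : ℝ) = z := by
      rw [← Real.rpow_add hz0]
      norm_num
    rw [one_mul] at hz2
    rw [le_div_iff₀ (by positivity)]
    calc (w : ℝ) * Real.log z ^ 2 ≤ (z : ℝ) ^ (1 / 2 : ℝ) * (z : ℝ) ^ (1 / 2 : ℝ) := by
          apply mul_le_mul (h3.trans h4) hz2 (by positivity) (by positivity)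
      _ = z := h5
  calc ((Qf z).card : ℝ) ≤ w + C1 * z / Real.log z ^ 2 := h1
    _ ≤ z / Real.log z ^ 2 + C1 * z / Real.log z ^ 2 := by gcongr
    _ = (C1 + 1) * (z / Real.log z ^ 2) := by ring

/-- the indices `m ≥ 1` for which `p_m ^ 2 - 2` is prime -/
def AI : Set ℕ := {m | 1 ≤ m ∧ (Nat.nth Nat.Prime (m - 1) ^ 2 - 2).Prime}

/-- few indices -/
theorem AI_le : ∃ C : ℝ, 0 < C ∧ ∀ y : ℕ, 2 ≤ y → ((AI ∩ Set.Icc 1 y).ncard : ℝ) ≤ C * (y / Real.log y) := by
  classical
  obtain ⟨C, hC, hev⟩ := Q_ev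
  obtain ⟨c, hc, hcheb⟩ := Pool.Agent.W38.PR.cheb
  obtain ⟨z₀, hz₀⟩ := eventually_atTop.1 hev
  set D : ℝ := 2 / c + 1 with hD
  have hD1 : 1 ≤ D := by
    have : 0 < 2 / c := by positivity
    linarith
  have hD0 : 0 < D := by linarith
  -- for large y
  have hlog : Tendsto (fun y : ℕ => Real.log (y : ℝ)) atTop atTop :=
    Real.tendsto_log_atTop.comp tendsto_natCast_atTop_atTop
  have hsm := Pool.Agent.TH464.PW.logpow_rpow 1 (D + 1) 1 (by linarith) one_pos
  obtain ⟨y₁, hy₁⟩ := eventually_atTop.1 ((hsm.and (hlog.eventually_ge_atTop 1)).and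
    (eventually_ge_atTop (z₀ + 3)))
  have hlarge : ∀ y : ℕ, y₁ ≤ y → ((AI ∩ Set.Icc 1 y).ncard : ℝ) ≤ (C * (D + 1)) * (y / Real.log y) := by
    intro y hy
    obtain ⟨⟨h1, h2⟩, h3⟩ := hy₁ y hy
    rw [pow_one, Real.rpow_one] at h1
    have hy3 : (3 : ℝ) ≤ y := by exact_mod_cast (by omega : 3 ≤ y)
    have hy0 : (0 : ℝ) < y := by linarith
    set x : ℝ := D * (y * Real.log y) with hx
    have hyx : (y : ℝ) ≤ x := by
      rw [hx]
      have : (y : ℝ) * 1 ≤ y * Real.log y := by gcongr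
      nlinarith
    set z : ℕ := ⌈x⌉₊ with hz
    have hxz : x ≤ z := Nat.le_ceil x
    have hzx : (z : ℝ) < x + 1 := Nat.ceil_lt_add_one (by positivity)
    have hyz : (y : ℝ) ≤ z := hyx.trans hxz
    have hyz' : y ≤ z := by exact_mod_cast hyz
    have hzz : (z : ℝ) ≤ (D + 1) * (y * Real.log y) := by
      have : (1 : ℝ) ≤ y * Real.log y := by nlinarith
      rw [hx] at hzx
      linarith
    have hz2 : (2 : ℝ) ≤ z := by linarith
    have hlz : Real.log z ≤ 2 * Real.log y := by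
      rw [show (2 : ℝ) * Real.log y = Real.log (y ^ 2) by rw [Real.log_pow]; norm_num]
      apply Real.log_le_log (by linarith)
      refine hzz.trans ?_
      calc (D + 1) * (y * Real.log y) = y * ((D + 1) * Real.log y) := by ring
        _ ≤ y * y := by gcongr
        _ = (y : ℝ) ^ 2 := by ring
    have hly : Real.log y ≤ Real.log z := Real.log_le_log hy0 hyz
    have hl0 : 0 < Real.log y := by linarith
    have hpi : (y : ℝ) ≤ Nat.primeCounting z := by
      have h4 := hcheb z hz2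
      rw [Nat.floor_natCast] at h4
      refine le_trans ?_ h4
      have h5 : x / (2 * Real.log y) ≤ z / Real.log z := by
        apply div_le_div₀ (by positivity) hxz (by linarith) hlz
      have h6 : x / (2 * Real.log y) = D * y / 2 := by
        rw [hx]
        field_simp
      rw [h6] at h5
      have h7 : c * (D * y / 2) ≤ c * (z / Real.log z) := by gcongr
      refine le_trans ?_ h7
      have h8 : c * D = 2 + c := by rw [hD]; field_simp
      have h9 : c * (D * y / 2) = (c * D) * y / 2 := by ring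
      rw [h9, h8]
      nlinarith
    have hpi' : y ≤ Nat.primeCounting z := by exact_mod_cast hpi
    have hinf := Nat.infinite_setOfPred_prime
    have hnth : ∀ m ∈ AI ∩ Set.Icc 1 y, Nat.nth Nat.Prime (m - 1) ∈ Qf z := by
      rintro m ⟨⟨hm1, hm2⟩, hm3, hm4⟩
      have hp := Nat.prime_nth_prime (m - 1)
      unfold Qf
      rw [mem_filter, mem_Icc]
      refine ⟨⟨hp.one_lt.le, ?_⟩, hp, hm2⟩
      have h5 : m - 1 < Nat.count Nat.Prime (z + 1) := by
        have : Nat.primeCounting z = Nat.count Nat.Prime (z + 1) := rfl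
        omega
      have := Nat.nth_lt_of_lt_count h5
      omega
    have hinj : Set.InjOn (fun m => Nat.nth Nat.Prime (m - 1)) (AI ∩ Set.Icc 1 y) := by
      intro a ha b hb hab
      have h5 := Nat.nth_injective hinf hab
      have h6 := ha.1.1
      have h7 := hb.1.1
      omega
    have hcard : (AI ∩ Set.Icc 1 y).ncard ≤ (Qf z).card := by
      rw [← Set.ncard_coe_finset]
      exact Set.ncard_le_ncard_of_injOn _ (fun m hm => by exact_mod_cast hnth m hm) hinj (Finset.finite_toSet _)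
    have h5 := hz₀ z (by omega)
    calc ((AI ∩ Set.Icc 1 y).ncard : ℝ) ≤ ((Qf z).card : ℝ) := by exact_mod_cast hcard
      _ ≤ C * (z / Real.log z ^ 2) := h5
      _ ≤ C * ((D + 1) * (y * Real.log y) / Real.log y ^ 2) := by gcongr
      _ = (C * (D + 1)) * (y / Real.log y) := by field_simp
  refine ⟨C * (D + 1) + Real.log (y₁ + 2), ?_, ?_⟩
  · have : 0 < Real.log ((y₁ : ℝ) + 2) := Real.log_pos (by
      have : (0 : ℝ) ≤ y₁ := Nat.cast_nonneg _
      linarith)
    positivity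
  · intro y hy
    have hy2 : (2 : ℝ) ≤ y := by exact_mod_cast hy
    have hl0 : 0 < Real.log y := Real.log_pos (by linarith)
    have hL0 : 0 ≤ Real.log ((y₁ : ℝ) + 2) := Real.log_nonneg (by
      have : (0 : ℝ) ≤ y₁ := Nat.cast_nonneg _
      linarith)
    rcases Nat.lt_or_ge y y₁ with h | h
    · have h1 : (AI ∩ Set.Icc 1 y).ncard ≤ y := by
        have h2 : (AI ∩ Set.Icc 1 y).ncard ≤ (Set.Icc 1 y).ncard :=
          Set.ncard_le_ncard Set.inter_subset_right (Set.finite_Icc 1 y)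
        have h3 : (Set.Icc 1 y).ncard = y := by
          rw [← Finset.coe_Icc, Set.ncard_coe_finset, Nat.card_Icc, Nat.add_sub_cancel]
        exact h2.trans h3.le
      have h2 : Real.log y ≤ Real.log ((y₁ : ℝ) + 2) := by
        apply Real.log_le_log (by linarith)
        have : (y : ℝ) ≤ y₁ := by exact_mod_cast h.le
        linarith
      calc ((AI ∩ Set.Icc 1 y).ncard : ℝ) ≤ y := by exact_mod_cast h1
        _ = Real.log y * (y / Real.log y) := by field_simp
        _ ≤ Real.log ((y₁ : ℝ) + 2) * (y / Real.log y) := by gcongr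
        _ ≤ _ := by
          have : 0 ≤ C * (D + 1) * (y / Real.log y) := by positivity
          rw [add_mul]
          linarith
    · refine (hlarge y h).trans ?_
      have : 0 ≤ Real.log ((y₁ : ℝ) + 2) * (y / Real.log y) := by positivity
      rw [add_mul]
      linarith

end Pool.Agent.Helper724_Q
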